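import Pool.Agent.Helper46.DZ2.St

/-! Module TARGET of project DZ2 (MP_b3ce06_al). -/

set_option autoImplicit false
set_option linter.unusedSectionVars false

namespace Pool.Agent.Helper72.DZ2

open Pool.Agent.Helper46.DZ2
open Matrix

section SL

variable {K : Type} [Field K] [CharP K 2]

private lemma neg_eq' (a : K) : -a = a := by
  have : a + a = 0 := CharTwo.add_self_eq_zero a
  exact neg_eq_of_add_eq_zero_left this

private lemma two_eq' : (2 : K) = 0 := CharTwo.two_eq_zero

/-- upper transvection -/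
def EE (c : K) : SpecialLinearGroup (Fin 2) K := ⟨!![1, c; 0, 1], by simp [Matrix.det_fin_two]⟩

/-- the Weyl element -/
def WW (K : Type) [Field K] [CharP K 2] : SpecialLinearGroup (Fin 2) K :=
  ⟨!![0, 1; 1, 0], by rw [Matrix.det_fin_two]; simp [neg_eq']⟩

/-- diagonal matrices -/
def DD (s : Kˣ) : SpecialLinearGroup (Fin 2) K :=
  ⟨!![((s⁻¹ : Kˣ) : K), 0; 0, (s : K)], by rw [Matrix.det_fin_two]; simp⟩

private lemma EE_add (a b : K) : EE (a + b) = EE a * EE b := by
  apply Subtype.ext
  ext i j
  fin_cases i <;> fin_cases j <;> simp [EE, Matrix.mul_apply, Fin.sum_univ_two, add_comm]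

private lemma EE_zero : EE (0 : K) = 1 := by
  apply Subtype.ext
  ext i j
  fin_cases i <;> fin_cases j <;> simp [EE]

private lemma EE_inv (a : K) : (EE a)⁻¹ = EE a := by
  rw [inv_eq_iff_mul_eq_one, ← EE_add, CharTwo.add_self_eq_zero, EE_zero]

private lemma WW_mul : WW K * WW K = 1 := by
  apply Subtype.ext
  ext i j
  fin_cases i <;> fin_cases j <;> simp [WW, Matrix.mul_apply, Fin.sum_univ_two]

private lemma WW_inv : (WW K)⁻¹ = WW K := by
  rw [inv_eq_iff_mul_eq_one, WW_mul]

private lemma braid : EE (1 : K) * WW K * EE 1 = WW K * EE 1 * WW K := by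
  apply Subtype.ext
  ext i j
  fin_cases i <;> fin_cases j <;>
    simp [EE, WW, Matrix.mul_apply, Fin.sum_univ_two, CharTwo.add_self_eq_zero]

private lemma cube : (EE (1 : K) * WW K) ^ 3 = 1 := by
  have h : (EE (1 : K) * WW K) ^ 3 = (EE 1 * WW K * EE 1) * (WW K * EE 1 * WW K) := by
    rw [pow_succ, pow_two]; group
  rw [h, braid]
  have : WW K * EE (1 : K) * WW K * (WW K * EE 1 * WW K) =
      WW K * EE 1 * (WW K * WW K) * EE 1 * WW K := by group
  rw [this, WW_mul, mul_one]
  have : WW K * EE (1 : K) * EE 1 * WW K = WW K * (EE 1 * EE 1) * WW K := by group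
  rw [this, ← EE_add, CharTwo.add_self_eq_zero, EE_zero, mul_one, WW_mul]

private lemma DD_mul (s r : Kˣ) : DD (s * r) = DD s * DD r := by
  apply Subtype.ext
  ext i j
  fin_cases i <;> fin_cases j <;>
    simp [DD, Matrix.mul_apply, Fin.sum_univ_two, mul_comm]

private lemma DD_one : DD (1 : Kˣ) = 1 := by
  apply Subtype.ext
  ext i j
  fin_cases i <;> fin_cases j <;> simp [DD]

private lemma DD_pow (s : Kˣ) (m : ℕ) : DD (s ^ m) = DD s ^ m := by
  induction m with
  | zero => rw [pow_zero, pow_zero, DD_one]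
  | succ m ih => rw [pow_succ, pow_succ, DD_mul, ih]

private lemma DD_inv (s : Kˣ) : DD (s⁻¹) = (DD s)⁻¹ := by
  rw [eq_inv_iff_mul_eq_one, ← DD_mul, inv_mul_cancel, DD_one]

/-- `t⁻¹ E(c) t = E(s² c)` -/
private lemma DD_conj (s : Kˣ) (c : K) : (DD s)⁻¹ * EE c * DD s = EE ((s : K) ^ 2 * c) := by
  rw [← DD_inv]
  apply Subtype.ext
  ext i j
  fin_cases i <;> fin_cases j <;>
    simp [DD, EE, Matrix.mul_apply, Fin.sum_univ_two] <;> ring

private lemma WW_conj (s : Kˣ) : WW K * DD s * WW K = (DD s)⁻¹ := by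
  rw [← DD_inv]
  apply Subtype.ext
  ext i j
  fin_cases i <;> fin_cases j <;> simp [DD, WW, Matrix.mul_apply, Fin.sum_univ_two]

/-- the third relation in `SL(2,K)` -/
private lemma rel3 (s : Kˣ) (l e : ℕ) (h : (1 : K) + (s : K) ^ 2 = ((s : K) ^ 2) ^ l)
    (he : DD s ^ e = DD s) :
    (WW K * EE 1)⁻¹ * DD s * (WW K * EE 1) =
      ((DD s ^ l)⁻¹ * EE (1 : K) * DD s ^ l)⁻¹ * (DD s ^ e)⁻¹ := by
  have h1 : (DD s ^ l)⁻¹ * EE (1 : K) * DD s ^ l = EE (1 + (s : K) ^ 2) := by
    rw [← DD_pow, DD_conj]
    congr 1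
    rw [h]; push_cast; ring
  rw [h1, EE_inv, he]
  have h2 : (WW K * EE (1 : K))⁻¹ * DD s * (WW K * EE 1) =
      (EE 1)⁻¹ * (WW K)⁻¹ * DD s * WW K * EE 1 := by group
  rw [h2, WW_inv, EE_inv]
  have h3 : EE (1 : K) * WW K * DD s * WW K * EE 1 = EE 1 * (WW K * DD s * WW K) * EE 1 := by group
  rw [h3, WW_conj]
  have h4 : (DD s)⁻¹ * EE (1 : K) = EE ((s : K) ^ 2 * 1) * (DD s)⁻¹ := by
    rw [← DD_conj]; group
  rw [mul_assoc, h4, ← mul_assoc, ← EE_add, mul_one]

/-- generation of `SL(2,K)` -/
private lemma gen (P : Subgroup (SpecialLinearGroup (Fin 2) K)) (hE : ∀ c : K, EE c ∈ P)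
    (hW : WW K ∈ P) : P = ⊤ := by
  rw [Subgroup.eq_top_iff']
  have key : ∀ g : SpecialLinearGroup (Fin 2) K, g.1 1 0 ≠ 0 → g ∈ P := by
    intro g hg
    have hdet := g.2
    rw [Matrix.det_fin_two] at hdet
    have hF : WW K * EE (g.1 1 0) * WW K ∈ P := P.mul_mem (P.mul_mem hW (hE _)) hW
    have : g = EE ((g.1 0 0 - 1) * (g.1 1 0)⁻¹) * (WW K * EE (g.1 1 0) * WW K) *
        EE ((g.1 1 1 - 1) * (g.1 1 0)⁻¹) := by
      apply Subtype.ext
      ext i j
      fin_cases i <;> fin_cases j <;>
        simp [EE, WW, Matrix.mul_apply, Fin.sum_univ_two]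
      · field_simp
        ring
      · field_simp
        linear_combination -hdet
      · field_simp
        ring
    rw [this]
    exact P.mul_mem (P.mul_mem (hE _) hF) (hE _)
  intro g
  by_cases hg : g.1 1 0 = 0
  · have h1 : WW K * g ∈ P := by
      apply key
      have hdet := g.2
      rw [Matrix.det_fin_two, hg, mul_zero, sub_zero] at hdet
      have : (WW K * g).1 1 0 = g.1 0 0 := by
        simp [WW, Matrix.mul_apply, Fin.sum_univ_two]
      rw [this]
      exact left_ne_zero_of_mul_eq_one hdet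
    have h2 : g = WW K * (WW K * g) := by rw [← mul_assoc, WW_mul, one_mul]
    rw [h2]
    exact P.mul_mem hW h1
  · exact key g hg

end SL

section Frob

variable {K : Type} [Field K] [CharP K 2] [Finite K]

private lemma map_inj : Function.Injective
    (SpecialLinearGroup.map (n := Fin 2) (frobenius K 2)) := by
  intro g h hgh
  apply Subtype.ext
  ext i j
  have := congrArg (fun M => M.1 i j) hgh
  simp only [SpecialLinearGroup.map_apply_coe, RingHom.mapMatrix_apply, Matrix.map_apply] at this
  exact frobenius_inj K 2 this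

/-- entrywise Frobenius -/
noncomputable def tau (K : Type) [Field K] [CharP K 2] [Finite K] :
    MulAut (SpecialLinearGroup (Fin 2) K) :=
  MulEquiv.ofBijective (SpecialLinearGroup.map (n := Fin 2) (frobenius K 2))
    (Finite.injective_iff_bijective.1 map_inj)

private lemma tau_apply (g : SpecialLinearGroup (Fin 2) K) (i j : Fin 2) :
    (tau K g).1 i j = (g.1 i j) ^ 2 := by
  show (SpecialLinearGroup.map (n := Fin 2) (frobenius K 2) g).1 i j = _
  simp [frobenius_def]

private lemma tau_pow_apply (m : ℕ) (g : SpecialLinearGroup (Fin 2) K) (i j : Fin 2) :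
    ((tau K ^ m) g).1 i j = (g.1 i j) ^ (2 ^ m) := by
  induction m with
  | zero => simp
  | succ m ih =>
    rw [pow_succ', MulAut.mul_apply, tau_apply, ih, ← pow_mul, pow_succ]

private lemma tau_E : tau K (EE 1) = EE 1 := by
  apply Subtype.ext
  ext i j
  rw [tau_apply]
  fin_cases i <;> fin_cases j <;> simp [EE]

private lemma tau_W : tau K (WW K) = WW K := by
  apply Subtype.ext
  ext i j
  rw [tau_apply]
  fin_cases i <;> fin_cases j <;> simp [WW]

private lemma tau_D (s : Kˣ) : tau K (DD s) = DD s ^ 2 := by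
  rw [← DD_pow]
  apply Subtype.ext
  ext i j
  rw [tau_apply]
  fin_cases i <;> fin_cases j <;> simp [DD]

end Frob

/-- the target group -/
abbrev TT (K : Type) [Field K] : Type :=
  SpecialLinearGroup (Fin 2) K ⋊[MonoidHom.id (MulAut (SpecialLinearGroup (Fin 2) K))]
    MulAut (SpecialLinearGroup (Fin 2) K)

/-- additive span of the powers of `x` -/
private lemma span_top (n : ℕ) (hn : n.Prime) (x : GaloisField 2 n) (hx0 : x ≠ 0) (hx1 : x ≠ 1)
    (Z : AddSubgroup (GaloisField 2 n)) (hZ : ∀ i : ℕ, x ^ i ∈ Z) : ∀ y, y ∈ Z := by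
  have hfr : Module.finrank (ZMod 2) (GaloisField 2 n) = n := GaloisField.finrank 2 hn.ne_zero
  have hsimple : IsSimpleOrder (Subalgebra (ZMod 2) (GaloisField 2 n)) :=
    Subalgebra.isSimpleOrder_of_finrank_prime _ _ (by rw [hfr]; exact hn)
  have htop : Algebra.adjoin (ZMod 2) {x} = ⊤ := by
    rcases hsimple.eq_bot_or_eq_top (Algebra.adjoin (ZMod 2) {x}) with h | h
    · exfalso
      have hx : x ∈ Algebra.adjoin (ZMod 2) {x} := Algebra.self_mem_adjoin_singleton _ _
      rw [h, Algebra.mem_bot] at hx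
      obtain ⟨c, hc⟩ := hx
      fin_cases c
      · exact hx0 (by rw [← hc]; exact map_zero _)
      · exact hx1 (by rw [← hc]; exact map_one _)
    · exact h
  intro y
  have hy : y ∈ Algebra.adjoin (ZMod 2) {x} := by rw [htop]; trivial
  rw [Algebra.adjoin_singleton_eq_range_aeval] at hy
  obtain ⟨p, rfl⟩ := hy
  induction p using Polynomial.induction_on' with
  | add p q hp hq => rw [map_add]; exact Z.add_mem hp hq
  | monomial i c =>
    show Polynomial.aeval x (Polynomial.monomial i c) ∈ Z
    rw [Polynomial.aeval_monomial]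
    fin_cases c
    · have : (algebraMap (ZMod 2) (GaloisField 2 n)) 0 * x ^ i = 0 := by rw [map_zero, zero_mul]
      exact this ▸ Z.zero_mem
    · have : (algebraMap (ZMod 2) (GaloisField 2 n)) 1 * x ^ i = x ^ i := by rw [map_one, one_mul]
      exact this.symm ▸ hZ i

theorem hTarget : StTarget := by
  intro n M l e k x hn hn5 hk hM hord hxl he
  have hxM : x ^ M = 1 := hord ▸ pow_orderOf_eq_one x
  have hx0 : x ≠ 0 := by
    rintro rfl
    rw [zero_pow (by omega)] at hxM
    exact zero_ne_one hxM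
  have hx1 : x ≠ 1 := by
    rintro rfl
    rw [orderOf_one] at hord
    omega
  haveI hfin : Finite (GaloisField 2 n) := inferInstance
  have hpow : ∀ a : GaloisField 2 n, a ^ (2 ^ n) = a := by
    intro a
    haveI := Fintype.ofFinite (GaloisField 2 n)
    have h1 := FiniteField.pow_card a
    have h2 : Fintype.card (GaloisField 2 n) = 2 ^ n := by
      rw [← Nat.card_eq_fintype_card, GaloisField.card 2 n hn.ne_zero]
    rwa [h2] at h1
  set xu : (GaloisField 2 n)ˣ := Units.mk0 x hx0 with hxu
  set s : (GaloisField 2 n)ˣ := xu ^ (2 ^ (n - 1)) with hs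
  have hs2 : (s : GaloisField 2 n) ^ 2 = x := by
    rw [hs, hxu]
    rw [Units.val_pow_eq_pow_val, Units.val_mk0, ← pow_mul, ← pow_succ]
    have : n - 1 + 1 = n := by omega
    rw [this]
    exact hpow x
  have hsM : s ^ M = 1 := by
    have h1 : xu ^ M = 1 := by
      apply Units.ext
      rw [Units.val_pow_eq_pow_val, Units.val_mk0, hxM, Units.val_one]
    rw [hs, ← pow_mul, mul_comm, pow_mul, h1, one_pow]
  have hDe : DD s ^ e = DD s := by
    have h1 : (DD s) ^ M = 1 := by rw [← DD_pow, hsM, DD_one]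
    have h2 := pow_eq_pow_of_modEq he h1
    rwa [pow_one] at h2
  have hrel := rel3 s l e (by rw [hs2]; exact hxl) hDe
  -- the Frobenius element
  set Φ : TT (GaloisField 2 n) := SemidirectProduct.inr (tau (GaloisField 2 n))⁻¹ with hΦ
  have htaun : (tau (GaloisField 2 n)) ^ n = 1 := by
    ext g i j
    rw [tau_pow_apply, hpow]
    rfl
  have hΦn : Φ ^ n = 1 := by
    rw [hΦ, ← map_pow, inv_pow, htaun, inv_one, map_one]
  have hΦk : Φ ^ (6 * k) = Φ := by
    have h1 : Φ ^ (6 * k - 1) = 1 := by
      rcases Int.natAbs_eq (6 * k - 1) with h | h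
      · rw [h, hk, zpow_natCast, hΦn]
      · rw [h, hk, _root_.zpow_neg, zpow_natCast, hΦn, inv_one]
    have h2 : (6 * k : ℤ) = (6 * k - 1) + 1 := by ring
    rw [h2, _root_.zpow_add, h1, one_mul, zpow_one]
  have hconj : ∀ g : SpecialLinearGroup (Fin 2) (GaloisField 2 n),
      Φ⁻¹ * SemidirectProduct.inl g * Φ = SemidirectProduct.inl (tau (GaloisField 2 n) g) := by
    intro g
    have h1 := SemidirectProduct.inl_aut
      (φ := MonoidHom.id (MulAut (SpecialLinearGroup (Fin 2) (GaloisField 2 n)))) (tau (GaloisField 2 n)) g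
    rw [hΦ, ← map_inv, inv_inv]
    exact h1.symm
  set A : TT (GaloisField 2 n) := SemidirectProduct.inl (EE 1) with hA
  set B : TT (GaloisField 2 n) := SemidirectProduct.inl (WW (GaloisField 2 n)) with hB
  set t : TT (GaloisField 2 n) := SemidirectProduct.inl (DD s) with ht
  have hcA : Commute A Φ := by
    have h1 := hconj (EE 1)
    rw [tau_E] at h1
    show A * Φ = Φ * A
    calc A * Φ = Φ * (Φ⁻¹ * A * Φ) := by group
      _ = Φ * A := by rw [h1]
  have hcB : Commute B Φ := by
    have h1 := hconj (WW (GaloisField 2 n))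
    rw [tau_W] at h1
    show B * Φ = Φ * B
    calc B * Φ = Φ * (Φ⁻¹ * B * Φ) := by group
      _ = Φ * B := by rw [h1]
  have hABA : A * B * A = B * A * B := by
    have := congrArg (SemidirectProduct.inl
      (φ := MonoidHom.id (MulAut (SpecialLinearGroup (Fin 2) (GaloisField 2 n))))) (braid (K := GaloisField 2 n))
    simpa only [map_mul] using this
  have hAB3 : (A * B) ^ 3 = 1 := by
    have := congrArg (SemidirectProduct.inl
      (φ := MonoidHom.id (MulAut (SpecialLinearGroup (Fin 2) (GaloisField 2 n))))) (cube (K := GaloisField 2 n))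
    simpa only [map_mul, map_pow, map_one] using this
  have haw : (A * Φ) * (B * Φ) = (A * B) * Φ ^ 2 := by
    calc (A * Φ) * (B * Φ) = A * (Φ * B) * Φ := by group
      _ = A * (B * Φ) * Φ := by rw [hcB.eq]
      _ = (A * B) * Φ ^ 2 := by rw [pow_two]; group
  have hphi : phiW k (A * Φ) (B * Φ) = Φ := by
    unfold phiW
    have hc : Commute (A * B) (Φ ^ 2) := (hcA.mul_left hcB).pow_right 2
    rw [haw, hc.mul_pow, hAB3, one_mul, ← pow_mul, ← zpow_natCast, ← _root_.zpow_mul]
    exact hΦk
  refine ⟨TT (GaloisField 2 n), inferInstance, A * Φ, B * Φ, t, ?_, ?_⟩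
  · refine ⟨?_, ?_, ?_⟩
    · calc A * Φ * (B * Φ) * (A * Φ) = (A * B) * Φ ^ 2 * (A * Φ) := by rw [haw]
        _ = (A * B) * (Φ ^ 2 * A) * Φ := by group
        _ = (A * B) * (A * Φ ^ 2) * Φ := by rw [(hcA.pow_right 2).eq]
        _ = (A * B * A) * (Φ ^ 2 * Φ) := by group
        _ = (B * A * B) * (Φ ^ 2 * Φ) := by rw [hABA]
        _ = B * (A * (B * Φ ^ 2)) * Φ := by group
        _ = B * (A * (Φ ^ 2 * B)) * Φ := by rw [(hcB.pow_right 2).eq]
        _ = B * (A * Φ) * Φ * B * Φ := by rw [pow_two]; group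
        _ = B * (Φ * A) * Φ * B * Φ := by rw [hcA.eq]
        _ = B * Φ * (A * Φ) * (B * Φ) := by group
    · rw [hphi, hconj, tau_D, map_pow]
    · rw [hphi]
      have h1 : B * Φ * Φ⁻¹ = B := by group
      have h2 : A * Φ * Φ⁻¹ = A := by group
      rw [h1, h2]
      have := congrArg (SemidirectProduct.inl
        (φ := MonoidHom.id (MulAut (SpecialLinearGroup (Fin 2) (GaloisField 2 n))))) hrel
      simpa only [map_mul, map_inv, map_pow] using this
  · intro G _ f ha hw ht'
    have hΦr : Φ ∈ f.range := by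
      rw [← hphi]
      unfold phiW
      exact f.range.zpow_mem (f.range.pow_mem (f.range.mul_mem ha hw) 3) k
    have hAr : A ∈ f.range := by
      have h2 : A * Φ * Φ⁻¹ = A := by group
      rw [← h2]
      exact f.range.mul_mem ha (f.range.inv_mem hΦr)
    have hBr : B ∈ f.range := by
      have h2 : B * Φ * Φ⁻¹ = B := by group
      rw [← h2]
      exact f.range.mul_mem hw (f.range.inv_mem hΦr)
    let Z : AddSubgroup (GaloisField 2 n) :=
      { carrier := {c | (SemidirectProduct.inl (EE c) : TT (GaloisField 2 n)) ∈ f.range}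
        zero_mem' := by
          show (SemidirectProduct.inl (EE 0) : TT (GaloisField 2 n)) ∈ f.range
          rw [EE_zero, map_one]
          exact f.range.one_mem
        add_mem' := by
          intro b c hb hc
          show (SemidirectProduct.inl (EE (b + c)) : TT (GaloisField 2 n)) ∈ f.range
          rw [EE_add, map_mul]
          exact f.range.mul_mem hb hc
        neg_mem' := by
          intro b hb
          show (SemidirectProduct.inl (EE (-b)) : TT (GaloisField 2 n)) ∈ f.range
          rw [neg_eq']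
          exact hb }
    have hZ : ∀ i : ℕ, x ^ i ∈ Z := by
      intro i
      show (SemidirectProduct.inl (EE (x ^ i)) : TT (GaloisField 2 n)) ∈ f.range
      have h1 : EE (x ^ i) = (DD s ^ i)⁻¹ * EE (1 : GaloisField 2 n) * DD s ^ i := by
        rw [← DD_pow, DD_conj, mul_one, ← hs2]
        congr 1
        push_cast
        ring
      rw [h1, map_mul, map_mul, map_inv, map_pow]
      exact f.range.mul_mem (f.range.mul_mem (f.range.inv_mem (f.range.pow_mem ht' i)) hAr)
        (f.range.pow_mem ht' i)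
    have hall := span_top n hn x hx0 hx1 Z hZ
    have hP : f.range.comap (SemidirectProduct.inl
        (φ := MonoidHom.id (MulAut (SpecialLinearGroup (Fin 2) (GaloisField 2 n))))) = ⊤ :=
      gen _ (fun c => hall c) hBr
    let rh : TT (GaloisField 2 n) →* MulAut (SpecialLinearGroup (Fin 2) (GaloisField 2 n)) := SemidirectProduct.rightHom
    refine ⟨(rh.comp f).ker, inferInstance, ?_⟩
    let g' : (rh.comp f).ker →* SpecialLinearGroup (Fin 2) (GaloisField 2 n) :=
      { toFun := fun y => (f y.1).left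
        map_one' := by
          show (f 1).left = 1
          rw [map_one]; rfl
        map_mul' := by
          intro y z
          show (f (y.1 * z.1)).left = (f y.1).left * (f z.1).left
          have hy : (f y.1).right = 1 := y.2
          rw [map_mul, SemidirectProduct.mul_left, hy]
          rfl }
    refine ⟨(QuotientGroup.mk' (Subgroup.center (SpecialLinearGroup (Fin 2) (GaloisField 2 n)))).comp g', ?_⟩
    intro q
    obtain ⟨g, rfl⟩ := QuotientGroup.mk'_surjective _ q
    have hg : g ∈ f.range.comap (SemidirectProduct.inl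
        (φ := MonoidHom.id (MulAut (SpecialLinearGroup (Fin 2) (GaloisField 2 n))))) := by
      rw [hP]; trivial
    obtain ⟨y, hy⟩ := hg
    refine ⟨⟨y, ?_⟩, ?_⟩
    · show (f y).right = 1
      rw [hy]; rfl
    · show QuotientGroup.mk' _ (f y).left = _
      rw [hy]
      rfl

end Pool.Agent.Helper72.DZ2
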